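import Pool.Agent.H447R3.KuB

/-!
# The Kunneth conjecture is a statement modulo numerical equivalence

For every Weil cohomology theory `W` and every variety `X` of dimension `n` the Kunneth conjecture
`C(X)` holds if and only if there are cycles `z i` of codimension `n` on `X × X` with rational
coefficients which have the same intersection numbers with all cycles of codimension `n` as the
Kunneth components of the diagonal, and which are orthogonal projectors up to numerical
equivalence. No comparison of homological and numerical equivalence and no Lefschetz property is
assumed.
-/

open Pool.Agent.H914 Pool.Agent.H447

universe u v

namespace Pool.Agent.Results.MP_4ca46c_ag.KunnethNumerical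

/-- **The Kunneth conjecture can be tested modulo numerical equivalence.** -/
theorem result {k : Type u} [Field k] [IsAlgClosed k] {𝒱 : VarClass k} {ops : CycleOps 𝒱}
    (W : WeilCohomology.{u, v} ops) (X : 𝒱.Obj) : KunnethStd W X ↔ KunnethNum W X :=
  kunneth_iff_num

end Pool.Agent.Results.MP_4ca46c_ag.KunnethNumerical
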