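import Pool.Agent.W543.KU.Mid

/-!
# The Kunneth conjecture is the algebraicity of one class

Let `X` be a variety of dimension `n` with a divisor `D` such that `D ^ n` has nonzero degree (for
instance an ample divisor) and let `E` be a curve with nonzero first cohomology (for instance an
elliptic curve). Then the Kunneth conjecture for `X` is equivalent to the algebraicity of a single
class: the middle Kunneth component of the diagonal of the variety `X × X × E` of dimension
`2 n + 1`.
-/

open Pool.Agent.H914 Pool.Agent.H447

universe u v

namespace Pool.Agent.Results.MP_4ca46c_ag.MiddleComponent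

/-- **The Kunneth conjecture for `X` is the algebraicity of the middle Kunneth component of
`X × X × E`.** -/
theorem result {k : Type u} [Field k] [IsAlgClosed k] {𝒱 : VarClass k} {ops : CycleOps 𝒱}
    (W : WeilCohomology.{u, v} ops) (X E : 𝒱.Obj) (D : X.Cycles) (hD : X.IsCyc 1 D)
    (hdeg : X.V.degCycle (divPow ops D X.dim X.V.fundCycle) ≠ 0) (hE : E.dim = 1)
    (hb : bettiNumber W E 1 ≠ 0) (DE : E.Cycles) (hDE : E.IsCyc 1 DE)
    (hdegE : E.V.degCycle DE ≠ 0) :
    KunnethStd W X ↔ KunnethAt W ((X.prod X).prod E) ((X.prod X).prod E).dim :=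
  Pool.Agent.W543.KU.kunneth_iff_middle hD hdeg hE hb hDE hdegE

end Pool.Agent.Results.MP_4ca46c_ag.MiddleComponent
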