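import Pool.Agent.H578R3.SgnCyc

/-!
# The even part of the Kunneth decomposition in all cohomology theories at once

For a variety `X` of dimension `n` let `β` be the largest intersection number with the diagonal of
a cycle of codimension `n` on `X × X` which is a projector modulo numerical equivalence. The number
`β` is at most the sum of the even Betti numbers of `X` in every Weil cohomology theory; and one
cycle `P` on `X × X` induces the projector onto the even cohomology in every Weil cohomology theory
in which this projector is algebraic, that is, in which equality holds.
-/

open Pool.Agent.H914 Pool.Agent.H447 Pool.Agent.H578R3.Sgn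

universe u v

namespace Pool.Agent.Results.MP_4ca46c_ag.UniversalEvenCycle

/-- **One cycle for the even Kunneth component in all theories.** -/
theorem result {k : Type u} [Field k] [IsAlgClosed k] {𝒱 : VarClass k} {ops : CycleOps 𝒱}
    (X : 𝒱.Obj) (W₀ : WeilCohomology.{u, v} ops) :
    ∃ P, (X.prod X).IsCyc X.dim P ∧ ∃ β : ℚ,
      IsGreatest {d | ∃ z, NumProjector ops X z ∧ diagNumber ops X z = d} β ∧
      ∀ W : WeilCohomology.{u, v} ops, β ≤ evenBetti W X ∧
        List.TFAE [SignStd W X, InducesEven W X P, (evenBetti W X : ℚ) = β] :=
  sign_universal X W₀

end Pool.Agent.Results.MP_4ca46c_ag.UniversalEvenCycle
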